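import Pool.Agent.Y958.SP.Final
import Pool.Agent.Y641.SP.Sm
import Pool.Agent.Y434.SP.M4F
import Pool.Agent.Y889.SP.M2
import Pool.Agent.Y108.SP.Incd
import Pool.Agent.Y108.SP.Incm
import Pool.Agent.Y447.SP.Pack2
import Pool.Agent.Y961.SP.Rnd
import Pool.Agent.Y331.SP.ParK

/-!
# Every integer becomes a good shift for the divisor correlations after adding `C log log N` elements of a sparse set

The definitions of `D`, `main`, `G`, `ram`, `κ`, `𝔖`, `Density` are those of the starting file `PowerSavingShifts`.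
Parts of the proof are by helpers 641 (second moment), 434, 889, 108 (divisor sums), 447 (packing), 961 (random elements)
and 331 (parameters).
-/

set_option autoImplicit false

namespace Pool.Agent.Results.MP_122e00_nt.FewSummands

open Finset Polynomial
open Pool.Agent.Results.MP_122e00_nt.PowerSavingShifts (D e ram κ 𝔖 Density G main exists_P)

/-- For ALL `x ≤ N`: `D_r(x; h)` is the main term up to `E` and, if `|h| ≤ N ^ (1 - η)`, it is `x T_h(log x)` up to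
`E + N ^ (1 - η / 4)`. -/
def Asymp (r N : ℕ) (P : ℕ → ℝ[X]) (T : ℤ → ℝ[X]) (E η : ℝ) (h : ℤ) : Prop := ∀ x : ℕ, x ≤ N →
  |D r x h - main P x h| ≤ E ∧
    ((|h| : ℝ) ≤ (N : ℝ) ^ (1 - η) → |D r x h - x * (T h).eval (Real.log x)| ≤ E + (N : ℝ) ^ (1 - η / 4))

theorem incd : Pool.Agent.Y958.SP.INCD := Pool.Agent.Y108.SP.incd Pool.Agent.Y434.SP.t_M4

open Classical in
/-- **Divisor correlations: every integer becomes a good shift after adding `C log log N` elements of a sparse set.** Let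
`r ≥ 2`. There are polynomials `P_q` (`q ≥ 1`) and `T_h` (`h ≠ 0`) with the following properties.

(0) As in the starting file: `P_q` is the density of `d_r(n) e(b n / q)`, `(b, q) = 1`, with a power saving; for `h ≠ 0` the
series `G_h(u, v) = ∑ c_q(h) P_q(u) P_q(v)` converges absolutely, `y T_h(log y)` has the derivative `G_h(log y, log y)`, and
`T_h` has degree `2 r - 2` and leading coefficient `𝔖_r(h) / ((r - 1)!) ^ 2`.

(1) There is `θ > 0` such that for all `g` and `U` there is `C` such that for all `B`, `0 < η ≤ 1` and all large `N`: let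
`a_0, …, a_J` be positive integers with `2 a_j ≤ a_{j + 1}` and `a_0 · (N / a_J) · ∏ (a_{j + 1} / a_j) ≤ N ^ θ`, the product
over the `j` with `a_{j + 1} > g a_j`. Let `K ≥ C log log N`, `K a_J ≤ N`. For EVERY integer `c` with `|c| ≤ B N`, all but
`(J + 1) ^ K / (log N) ^ U` of the `(J + 1) ^ K` choices of `K` elements (with repetitions) give a shift
`h = c + a_{ω 1} + ⋯ + a_{ω K}` for which (or `h = 0`) the asymptotic formula holds for ALL `x ≤ N` up to `N / (log N) ^ U`. -/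
theorem result (r : ℕ) (hr : 2 ≤ r) : ∃ (P : ℕ → ℝ[X]) (T : ℤ → ℝ[X]),
    (Density r P ∧ (∀ q, 1 ≤ q → (P q).natDegree = r - 1 ∧ (P q).leadingCoeff = κ (r - 1) q / ((r - 1).factorial : ℝ)) ∧
      ∀ ε : ℝ, 0 < ε → ∃ C : ℝ, ∀ q i : ℕ, 1 ≤ q → |(P q).coeff i| ≤ C * (q : ℝ) ^ (ε - 1)) ∧
    (∀ h : ℤ, h ≠ 0 → (∀ u v : ℝ, Summable (fun q : ℕ => (ram (q + 1) h : ℝ) * ((P (q + 1)).eval u * (P (q + 1)).eval v))) ∧
      (∀ u : ℝ, (T h).eval u + (derivative (T h)).eval u = G P h u u) ∧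
      (T h).natDegree = 2 * r - 2 ∧ (T h).leadingCoeff = 𝔖 r h / ((r - 1).factorial : ℝ) ^ 2) ∧
    (∃ θ : ℝ, 0 < θ ∧ ∀ g U : ℕ, ∃ C : ℝ, 0 < C ∧ ∀ (B : ℕ) (η : ℝ), 0 < η → η ≤ 1 → ∃ N₀ : ℕ, ∀ N : ℕ, N₀ ≤ N →
      ∀ (J K : ℕ) (a : ℕ → ℕ) (c : ℤ), C * Real.log (Real.log N) ≤ K → K * a J ≤ N → |c| ≤ B * N →
      1 ≤ a 0 → (∀ j, j < J → 2 * a j ≤ a (j + 1)) →
      (a 0 : ℝ) * ((N : ℝ) / a J) * ∏ j ∈ (range J).filter (fun j => (g : ℝ) < (a (j + 1) : ℝ) / a j), ((a (j + 1) : ℝ) / a j) ≤ (N : ℝ) ^ θ →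
      ((univ.filter (fun ω : Fin K → Fin (J + 1) => c + ∑ i, (a (ω i) : ℤ) ≠ 0 ∧
        ¬ Asymp r N P T ((N : ℝ) / Real.log N ^ U) η (c + ∑ i, (a (ω i) : ℤ)))).card : ℝ) ≤ ((J : ℝ) + 1) ^ K / Real.log N ^ U) := by
  obtain ⟨t, rfl⟩ : ∃ t, r = t + 2 := ⟨r - 2, by omega⟩
  obtain ⟨P, hP, hlead, hdens⟩ := exists_P t
  obtain ⟨p1, p2⟩ := Pool.Agent.Y958.SP.props t P hP hlead hdens
  refine ⟨P, Pool.Agent.TH212.PS.Th t P, p1, p2, ?_⟩
  obtain ⟨θ, hθ, _, h1⟩ := Pool.Agent.Y958.SP.ind_few Pool.Agent.Y447.SP.P2.t_PACK2 Pool.Agent.Y961.SP.t_RND Pool.Agent.Y331.SP.park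
    Pool.Agent.Y641.SP.sm Pool.Agent.Y434.SP.t_M4 Pool.Agent.Y889.SP.m2 incd Pool.Agent.Y108.SP.incm t P hP
  refine ⟨θ, hθ, fun g U => ?_⟩
  obtain ⟨C, hC, h2⟩ := h1 g U
  refine ⟨C, hC, fun B η hη hη1 => ?_⟩
  obtain ⟨N₀, h3⟩ := h2 B η hη hη1
  refine ⟨N₀, fun N hN J K a c hCK hKa hc ha0 ha hp => ?_⟩
  refine le_trans ?_ (h3 N hN J K a c hCK hKa hc ha0 ha hp)
  apply Nat.cast_le.2
  apply card_le_card
  intro ω hω
  rw [mem_filter] at hω ⊢
  exact ⟨mem_univ _, hω.2.1, fun hg => hω.2.2 (Pool.Agent.Y958.SP.asymp_of t N P hP _ η _ hω.2.1 hg)⟩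

end Pool.Agent.Results.MP_122e00_nt.FewSummands
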