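import Pool.Agent.Y958.SP.Final
import Pool.Agent.Y641.SP.Sm
import Pool.Agent.Y434.SP.M4F
import Pool.Agent.Y889.SP.M2
import Pool.Agent.Y108.SP.Incd
import Pool.Agent.Y108.SP.Incm
import Pool.Agent.Y447.SP.Pack2
import Pool.Agent.Y958.SP.IndTwo
import Pool.Agent.Y515.SP.ParU

/-!
# Correlations of the divisor functions for almost all shifts in very sparse random families

The definitions of `D`, `main`, `G`, `ram`, `κ`, `𝔖`, `Density` are those of the starting file `PowerSavingShifts`.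
Parts of the proof are by helpers 641 (second moment), 434, 889, 108 (divisor sums), 447 (packing and independent
variables) and 515 (parameters).
-/

set_option autoImplicit false

namespace Pool.Agent.Results.MP_122e00_nt.SparseRandomShifts

open Finset Polynomial
open Pool.Agent.Results.MP_122e00_nt.PowerSavingShifts (D e ram κ 𝔖 Density G main exists_P)

/-- For ALL `x ≤ N`: `D_r(x; h)` is the main term up to `E` and, if `|h| ≤ N ^ (1 - η)`, it is `x T_h(log x)` up to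
`E + N ^ (1 - η / 4)`. -/
def Asymp (r N : ℕ) (P : ℕ → ℝ[X]) (T : ℤ → ℝ[X]) (E η : ℝ) (h : ℤ) : Prop := ∀ x : ℕ, x ≤ N →
  |D r x h - main P x h| ≤ E ∧
    ((|h| : ℝ) ≤ (N : ℝ) ^ (1 - η) → |D r x h - x * (T h).eval (Real.log x)| ≤ E + (N : ℝ) ^ (1 - η / 4))

/-- The Fourier transform of the law which gives the integer `v i` the probability `w i`. -/
noncomputable def φ {ι : Type} [Fintype ι] (w : ι → ℝ) (v : ι → ℤ) (α : ℝ) : ℂ := ∑ i, (w i : ℂ) * e ((v i : ℝ) * α)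

/-- Any points of `[0, 1)` which are pairwise at a distance `≥ 1 / N` and at which `|φ|` is larger than `ρ` are at most `K`
in number. -/
def FewLarge {ι : Type} [Fintype ι] (w : ι → ℝ) (v : ι → ℤ) (N : ℕ) (ρ K : ℝ) : Prop :=
  ∀ S : Finset ℝ, (∀ a ∈ S, 0 ≤ a ∧ a < 1 ∧ ρ < ‖φ w v a‖) → (∀ a ∈ S, ∀ b ∈ S, a ≠ b → 1 / (N : ℝ) ≤ |a - b|) → (S.card : ℝ) ≤ K

/-- `x_0, …, x_{K - 1}` are independent random integers: `x_i` takes the value `x i k` with the probability `p i k`, `k < m`.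
For every scale `τ_j`, `j ≤ J` (`1 ≤ τ_0`, `B τ_j < τ_{j + 1}`), the sum over `i` of the probabilities that two independent
copies of `x_i` differ by an amount in `[τ_j, B τ_j]` is at least `μ`. -/
structure Spread (K m J : ℕ) (p : Fin K → Fin m → ℝ) (x : Fin K → Fin m → ℤ) (τ : ℕ → ℝ) (B μ : ℝ) : Prop where
  nonneg : ∀ i k, 0 ≤ p i k
  one : ∀ i, ∑ k, p i k = 1
  first : 1 ≤ τ 0
  sep : ∀ j, j < J → B * τ j < τ (j + 1)
  spread : ∀ j, j ≤ J → μ ≤ ∑ i, ∑ k, ∑ l,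
    if τ j ≤ |((x i k - x i l : ℤ) : ℝ)| ∧ |((x i k - x i l : ℤ) : ℝ)| ≤ B * τ j then p i k * p i l else 0

theorem φ_eq {ι : Type} [Fintype ι] (w : ι → ℝ) (v : ι → ℤ) (α : ℝ) : φ w v α = Pool.Agent.Y958.SP.ph w v α := rfl

theorem incd : Pool.Agent.Y958.SP.INCD := Pool.Agent.Y108.SP.incd Pool.Agent.Y434.SP.t_M4

open Classical in
/-- **Divisor correlations for almost all shifts in very sparse random families.** Let `r ≥ 2`. There are polynomials `P_q`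
(`q ≥ 1`) and `T_h` (`h ≠ 0`) with the following properties.

(0) As in the starting file: `P_q` is the density of `d_r(n) e(b n / q)`, `(b, q) = 1`, with a power saving; for `h ≠ 0` the
series `G_h(u, v) = ∑ c_q(h) P_q(u) P_q(v)` converges absolutely, `y T_h(log y)` has the derivative `G_h(log y, log y)`, and
`T_h` has degree `2 r - 2` and leading coefficient `𝔖_r(h) / ((r - 1)!) ^ 2`.

(1) (Spectral criterion.) There are `θ > 0` and `C` such that for large `N` and EVERY law of a random integer `h`,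
`|h| ≤ B N`, with finitely many values: if, for some `ρ ∈ [N ^ (-θ), 1]`, its Fourier transform is larger than `ρ` at no more
than `N ^ θ` points of the circle with distances `≥ 1 / N`, then with probability at least `1 - ρ ^ (1 / 2) (log N) ^ C`
(or `h = 0`) the asymptotic formula holds for ALL `x ≤ N` up to `ρ ^ (1 / 8) N (log N) ^ C`.

(2) (Sums of independent integers.) There is `θ > 0` such that for all `U` and `B ≥ 2` there is `C` with: let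
`h = c + x_0 + ⋯ + x_{K - 1}`, `x_i` independent, `Spread` with `μ` at the scales `τ_0, …, τ_J ≤ N`, `|h| ≤ B₂ N`, `g ≥ 1`,
`C g ^ 2 (1 + log g) log log N ≤ μ log N`, and let `τ_0 · (N / τ_J) · ∏ (τ_{j + 1} / (g τ_j)) ≤ N ^ θ`, the product over the
`j` with `τ_{j + 1} > g τ_j`. Then with probability at least `1 - (log N) ^ (-U)` (or `h = 0`) the formula holds for ALL
`x ≤ N` up to `N / (log N) ^ U`.

(3) (Subset sums.) There is `θ > 0` such that for every `U` there is `C` with: if `s_0, …, s_J ≤ N` are positive integers with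
`2 s_j < s_{j + 1} ≤ g s_j`, `C g ^ 2 (1 + log g) log log N ≤ log N`, `s_0 ≤ N ^ θ s_J / N`, and `|c| ≤ B N`, then all but
`2 ^ (J + 1) / (log N) ^ U` of the `2 ^ (J + 1)` subset sums `h = c + ∑_{j ∈ I} s_j` (or `h = 0`) satisfy the formula for ALL
`x ≤ N` up to `N / (log N) ^ U`. -/
theorem result (r : ℕ) (hr : 2 ≤ r) : ∃ (P : ℕ → ℝ[X]) (T : ℤ → ℝ[X]),
    (Density r P ∧ (∀ q, 1 ≤ q → (P q).natDegree = r - 1 ∧ (P q).leadingCoeff = κ (r - 1) q / ((r - 1).factorial : ℝ)) ∧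
      ∀ ε : ℝ, 0 < ε → ∃ C : ℝ, ∀ q i : ℕ, 1 ≤ q → |(P q).coeff i| ≤ C * (q : ℝ) ^ (ε - 1)) ∧
    (∀ h : ℤ, h ≠ 0 → (∀ u v : ℝ, Summable (fun q : ℕ => (ram (q + 1) h : ℝ) * ((P (q + 1)).eval u * (P (q + 1)).eval v))) ∧
      (∀ u : ℝ, (T h).eval u + (derivative (T h)).eval u = G P h u u) ∧
      (T h).natDegree = 2 * r - 2 ∧ (T h).leadingCoeff = 𝔖 r h / ((r - 1).factorial : ℝ) ^ 2) ∧
    (∃ θ : ℝ, 0 < θ ∧ ∃ C : ℕ, ∀ (B : ℕ) (η : ℝ), 0 < η → η ≤ 1 → ∃ N₀ : ℕ, ∀ N : ℕ, N₀ ≤ N →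
      ∀ (ι : Type) [Fintype ι] (w : ι → ℝ) (v : ι → ℤ), (∀ i, 0 ≤ w i) → ∑ i, w i = 1 → (∀ i, |v i| ≤ B * N) →
      ∀ ρ : ℝ, (N : ℝ) ^ (-θ) ≤ ρ → ρ ≤ 1 → FewLarge w v N ρ ((N : ℝ) ^ θ) →
      ∑ i ∈ univ.filter (fun i : ι => v i ≠ 0 ∧ ¬ Asymp r N P T (ρ ^ (1 / 8 : ℝ) * N * Real.log N ^ C) η (v i)), w i ≤
        ρ ^ (1 / 2 : ℝ) * Real.log N ^ C) ∧
    (∃ θ : ℝ, 0 < θ ∧ ∀ (B U : ℕ), 2 ≤ B → ∃ C : ℝ, 0 < C ∧ ∀ (B₂ : ℕ) (η : ℝ), 0 < η → η ≤ 1 → ∃ N₀ : ℕ, ∀ N : ℕ, N₀ ≤ N →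
      ∀ (K m J : ℕ) (p : Fin K → Fin m → ℝ) (x : Fin K → Fin m → ℤ) (c : ℤ) (τ : ℕ → ℝ) (g μ : ℝ),
      Spread K m J p x τ B μ → τ J ≤ N → (∀ ω : Fin K → Fin m, |c + ∑ i, x i (ω i)| ≤ B₂ * N) → 1 ≤ g →
      C * g ^ 2 * (1 + Real.log g) * Real.log (Real.log N) ≤ μ * Real.log N →
      τ 0 * ((N : ℝ) / τ J) * ∏ j ∈ (range J).filter (fun j => g < τ (j + 1) / τ j), (τ (j + 1) / τ j / g) ≤ (N : ℝ) ^ θ →
      ∑ ω ∈ univ.filter (fun ω : Fin K → Fin m => c + ∑ i, x i (ω i) ≠ 0 ∧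
        ¬ Asymp r N P T ((N : ℝ) / Real.log N ^ U) η (c + ∑ i, x i (ω i))), ∏ i, p i (ω i) ≤ 1 / Real.log N ^ U) ∧
    (∃ θ : ℝ, 0 < θ ∧ ∀ U : ℕ, ∃ C : ℝ, 0 < C ∧ ∀ (B : ℕ) (η : ℝ), 0 < η → η ≤ 1 → ∃ N₀ : ℕ, ∀ N : ℕ, N₀ ≤ N →
      ∀ (J : ℕ) (s : ℕ → ℕ) (c : ℤ) (g : ℝ), 1 ≤ s 0 → (∀ j, j < J → 2 * s j < s (j + 1) ∧ (s (j + 1) : ℝ) ≤ g * s j) →
      s J ≤ N → |c| ≤ B * N → 1 ≤ g → C * g ^ 2 * (1 + Real.log g) * Real.log (Real.log N) ≤ Real.log N →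
      (s 0 : ℝ) * ((N : ℝ) / s J) ≤ (N : ℝ) ^ θ →
      ((univ.filter (fun I : Finset (Fin (J + 1)) => c + ∑ j ∈ I, (s j : ℤ) ≠ 0 ∧
        ¬ Asymp r N P T ((N : ℝ) / Real.log N ^ U) η (c + ∑ j ∈ I, (s j : ℤ)))).card : ℝ) ≤ 2 ^ (J + 1) / Real.log N ^ U) := by
  obtain ⟨t, rfl⟩ : ∃ t, r = t + 2 := ⟨r - 2, by omega⟩
  obtain ⟨P, hP, hlead, hdens⟩ := exists_P t
  obtain ⟨p1, p2⟩ := Pool.Agent.Y958.SP.props t P hP hlead hdens
  refine ⟨P, Pool.Agent.TH212.PS.Th t P, p1, p2, ?_, ?_, ?_⟩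
  · obtain ⟨θ, hθ, _, C, h1⟩ := Pool.Agent.Y958.SP.crit Pool.Agent.Y641.SP.sm Pool.Agent.Y434.SP.t_M4 Pool.Agent.Y889.SP.m2 incd
      Pool.Agent.Y108.SP.incm t P hP
    refine ⟨θ, hθ, C, fun B η hη hη1 => ?_⟩
    obtain ⟨N₀, h2⟩ := h1 B η hη hη1
    refine ⟨N₀, fun N hN ι _ w v hw hw1 hv ρ hρ hρ1 hf => ?_⟩
    refine le_trans ?_ (h2 N hN ι w v hw hw1 hv ρ hρ hρ1 hf)
    apply sum_le_sum_of_subset_of_nonneg
    · intro i hi
      rw [mem_filter] at hi ⊢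
      exact ⟨mem_univ _, hi.2.1, fun hg => hi.2.2 (Pool.Agent.Y958.SP.asymp_of t N P hP _ η (v i) hi.2.1 hg)⟩
    · intro i _ _
      exact hw i
  · obtain ⟨θ, hθ, _, h1⟩ := Pool.Agent.Y958.SP.ind_gen Pool.Agent.Y447.SP.P2.t_PACK2 Pool.Agent.Y958.SP.I2.t_IND2 Pool.Agent.Y515.SP.paru
      Pool.Agent.Y641.SP.sm Pool.Agent.Y434.SP.t_M4 Pool.Agent.Y889.SP.m2 incd Pool.Agent.Y108.SP.incm t P hP
    refine ⟨θ, hθ, fun B U hB => ?_⟩
    obtain ⟨C, hC, h2⟩ := h1 B U hB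
    refine ⟨C, hC, fun B₂ η hη hη1 => ?_⟩
    obtain ⟨N₀, h3⟩ := h2 B₂ η hη hη1
    refine ⟨N₀, fun N hN K m J p x c τ g μ hs hτ hb hg hC hp => ?_⟩
    refine le_trans ?_ (h3 N hN K m J p x c τ g μ ⟨hs.nonneg, hs.one, hs.first, hs.sep, hs.spread⟩ hτ hb hg hC hp)
    apply sum_le_sum_of_subset_of_nonneg
    · intro ω hω
      rw [mem_filter] at hω ⊢
      exact ⟨mem_univ _, hω.2.1, fun hg => hω.2.2 (Pool.Agent.Y958.SP.asymp_of t N P hP _ η _ hω.2.1 hg)⟩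
    · intro ω _ _
      exact prod_nonneg fun i _ => hs.nonneg i _
  · obtain ⟨θ, hθ, _, h1⟩ := Pool.Agent.Y958.SP.sub_sums Pool.Agent.Y447.SP.P2.t_PACK2 Pool.Agent.Y958.SP.I2.t_IND2 Pool.Agent.Y515.SP.paru
      Pool.Agent.Y641.SP.sm Pool.Agent.Y434.SP.t_M4 Pool.Agent.Y889.SP.m2 incd Pool.Agent.Y108.SP.incm t P hP
    refine ⟨θ, hθ, fun U => ?_⟩
    obtain ⟨C, hC, h2⟩ := h1 U
    refine ⟨C, hC, fun B η hη hη1 => ?_⟩
    obtain ⟨N₀, h3⟩ := h2 B η hη hη1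
    refine ⟨N₀, fun N hN J s c g hs0 hs hsJ hc hg hC hp => ?_⟩
    refine le_trans ?_ (h3 N hN J s c g hs0 hs hsJ hc hg hC hp)
    apply Nat.cast_le.2
    apply card_le_card
    intro I hI
    rw [mem_filter] at hI ⊢
    exact ⟨mem_univ _, hI.2.1, fun hg => hI.2.2 (Pool.Agent.Y958.SP.asymp_of t N P hP _ η _ hI.2.1 hg)⟩

end Pool.Agent.Results.MP_122e00_nt.SparseRandomShifts
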